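import Pool.Agent.L5helper69.SV.Defs3

/-!
# Job SV DESC (helper69): the descent step
-/

set_option autoImplicit false

namespace Pool.Agent.L5helper65.SV

open Pool.Agent.L5helper69 Pool.Agent.L5helper69.SV3 Polynomial

variable {Γ : Type} [Group Γ]

/-- the symbol: iterated differences -/
def sy : (m : ℕ) → (Γ → ℂ) → (Fin m → Γ) → Γ → ℂ
  | 0, f, _, x => f x
  | m + 1, f, v, x => sy m (fun y => f (v 0 * y) - f y) (Fin.tail v) x

theorem sy_sum {ι : Type} (s : Finset ι) (c : ι → ℂ) (m : ℕ) : ∀ (F : ι → Γ → ℂ) (v : Fin m → Γ)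
    (x : Γ), sy m (fun y => ∑ i ∈ s, c i * F i y) v x = ∑ i ∈ s, c i * sy m (F i) v x := by
  induction m with
  | zero => intro F v x; rfl
  | succ m ih =>
    intro F v x
    simp only [sy]
    rw [← ih]
    congr 1
    funext y
    rw [← Finset.sum_sub_distrib]
    exact Finset.sum_congr rfl fun i _ => by ring

theorem sy_add (m : ℕ) : ∀ (F G : Γ → ℂ) (v : Fin m → Γ) (x : Γ),
    sy m (fun y => F y + G y) v x = sy m F v x + sy m G v x := by
  induction m with
  | zero => intro F G v x; rfl
  | succ m ih =>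
    intro F G v x
    simp only [sy]
    rw [← ih]
    congr 1
    funext y
    ring

theorem sy_comp (ψ : Γ → Γ) (hψ : ∀ g h, ψ (g * h) = ψ g * ψ h) (m : ℕ) :
    ∀ (f : Γ → ℂ) (v : Fin m → Γ) (x : Γ),
    sy m (fun y => f (ψ y)) v x = sy m f (fun j => ψ (v j)) (ψ x) := by
  induction m with
  | zero => intro f v x; rfl
  | succ m ih =>
    intro f v x
    simp only [sy]
    have h1 : (fun y => f (ψ (v 0 * y)) - f (ψ y)) =
        fun y => (fun z => f (ψ (v 0) * z) - f z) (ψ y) := by
      funext y
      rw [hψ]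
    rw [h1]
    exact ih (fun z => f (ψ (v 0) * z) - f z) (Fin.tail v) x

theorem sy_zero {H : Subgroup Γ} (m : ℕ) : ∀ (f : Γ → ℂ), SV2.Pl H m f → ∀ v : Fin m → Γ,
    (∀ j, v j ∈ H) → ∀ x, sy m f v x = 0 := by
  induction m with
  | zero => intro f hf v _ x; exact hf x
  | succ m ih =>
    intro f hf v hv x
    simp only [sy]
    exact ih _ (hf _ (hv 0)) _ (fun j => hv j.succ) x

theorem pl_of {H : Subgroup Γ} (m : ℕ) : ∀ (f : Γ → ℂ), (∀ v : Fin m → Γ,
    (∀ j, v j ∈ H) → ∀ x, sy m f v x = 0) → SV2.Pl H m f := by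
  induction m with
  | zero => intro f hf x; exact hf Fin.elim0 (fun j => j.elim0) x
  | succ m ih =>
    intro f hf g hg
    apply ih
    intro v hv x
    have h1 := hf (Fin.cons g v) (fun j => by
      refine Fin.cases ?_ ?_ j
      · simpa using hg
      · intro i
        simpa using hv i) x
    simpa [sy] using h1

theorem sy_inv {H : Subgroup Γ} (m : ℕ) : ∀ (f : Γ → ℂ), SV2.Pl H (m + 1) f → ∀ v : Fin m → Γ,
    (∀ j, v j ∈ H) → ∀ g ∈ H, ∀ x, sy m f v (g * x) = sy m f v x := by
  induction m with
  | zero =>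
    intro f hf v _ g hg x
    exact sub_eq_zero.1 (hf g hg x)
  | succ m ih =>
    intro f hf v hv g hg x
    simp only [sy]
    exact ih _ (hf _ (hv 0)) _ (fun j => hv j.succ) g hg x

theorem sy_mul {H : Subgroup Γ} (m : ℕ) : ∀ (f : Γ → ℂ), SV2.Pl H (m + 1) f → ∀ v : Fin m → Γ,
    (∀ j, v j ∈ H) → ∀ (j : Fin m), ∀ g ∈ H, ∀ h ∈ H, ∀ x,
    sy m f (Function.update v j (g * h)) x =
      sy m f (Function.update v j g) x + sy m f (Function.update v j h) x := by
  induction m with
  | zero => intro f _ v _ j; exact j.elim0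
  | succ m ih =>
    intro f hf v hv j g hg h hh x
    simp only [sy]
    refine Fin.cases ?_ ?_ j
    · have e1 : ∀ u : Γ, Fin.tail (Function.update v 0 u) = Fin.tail v := fun u =>
        Fin.tail_update_zero _ _
      simp only [Function.update_self, e1]
      have h1 : (fun y => f (g * h * y) - f y) = fun y =>
          (f (g * y) - f y) + ((f (h * y) - f y) +
            ((f (g * (h * y)) - f (h * y)) - (f (g * y) - f y))) := by
        funext y
        rw [mul_assoc]
        ring
      rw [h1, sy_add m (fun y => f (g * y) - f y) (fun y => (f (h * y) - f y) +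
            ((f (g * (h * y)) - f (h * y)) - (f (g * y) - f y))),
        sy_add m (fun y => f (h * y) - f y)
          (fun y => (f (g * (h * y)) - f (h * y)) - (f (g * y) - f y))]
      have h2 : sy m (fun y => (f (g * (h * y)) - f (h * y)) - (f (g * y) - f y))
          (Fin.tail v) x = 0 :=
        sy_zero m _ (hf g hg h hh) _ (fun j => hv j.succ) x
      rw [h2, add_zero]
    · intro i
      have e1 : ∀ u : Γ, (Function.update v i.succ u) 0 = v 0 := fun u =>
        Function.update_of_ne (Fin.succ_ne_zero i).symm _ _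
      have e2 : ∀ u : Γ, Fin.tail (Function.update v i.succ u) =
          Function.update (Fin.tail v) i u := fun u => Fin.tail_update_succ _ _ _
      simp only [e1, e2]
      exact ih _ (hf _ (hv 0)) _ (fun j => hv j.succ) i g hg h hh x

theorem desc : St_Desc := by
  intro hdiag Γ _ H Φ hΦ P hP hgood m
  obtain ⟨Q, hQ, hroots, hq⟩ := hdiag P hP (m + 1)
  refine ⟨Q, hQ, hroots, ?_⟩
  intro f hf
  apply pl_of
  intro v hv x
  have hit : ∀ (k : ℕ) (g : Γ), g ∈ H → Φ^[k] g ∈ H := by
    intro k
    induction k with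
    | zero => intro g hg; exact hg
    | succ k ih =>
      intro g hg
      rw [Function.iterate_succ_apply]
      exact ih _ (hΦ g hg)
  let b : (Fin (m + 1) → ℕ) → ℂ := fun n =>
    sy m f (fun j => Φ^[n j.succ] (v j)) (Φ^[n 0] x)
  have hb := hq b ?_
  · rw [sy_sum (Finset.range (Q.natDegree + 1)) (fun i => Q.coeff i) m
      (fun i y => f (Φ^[i] y)) v x]
    rw [← hb]
    refine Finset.sum_congr rfl fun i _ => ?_
    congr 1
    exact sy_comp (Φ^[i]) (fun g h => iterate_map_mul Φ i g h) m f v x
  · intro j n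
    refine Fin.cases ?_ ?_ j
    · have h1 := hgood.2 (sy m f (fun j => Φ^[n j.succ] (v j)))
        (fun g hg y => sy_inv m f hf _ (fun j => hit _ _ (hv j)) g hg y) x (n 0)
      rw [← h1]
      refine Finset.sum_congr rfl fun i _ => ?_
      have e1 : (fun j : Fin m => Φ^[(n + Pi.single 0 i : Fin (m + 1) → ℕ) j.succ] (v j)) =
          (fun j => Φ^[n j.succ] (v j)) := by
        funext l
        simp [Pi.single_apply, Fin.succ_ne_zero]
      have e2 : (n + Pi.single 0 i : Fin (m + 1) → ℕ) 0 = n 0 + i := by simp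
      change P.coeff i * sy m f (fun j : Fin m => Φ^[(n + Pi.single 0 i : Fin (m + 1) → ℕ) j.succ] (v j))
        (Φ^[(n + Pi.single 0 i : Fin (m + 1) → ℕ) 0] x) = _
      rw [e1, e2]
    · intro j'
      have h1 := hgood.1 (fun g => sy m f
        (Function.update (fun j => Φ^[n j.succ] (v j)) j' g) (Φ^[n 0] x))
        (fun g hg h hh => sy_mul m f hf _ (fun j => hit _ _ (hv j)) j' g hg h hh _)
        (v j') (hv j') (n j'.succ)
      rw [← h1]
      refine Finset.sum_congr rfl fun i _ => ?_
      have e1 : (fun j : Fin m => Φ^[(n + Pi.single j'.succ i : Fin (m + 1) → ℕ) j.succ] (v j)) =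
          Function.update (fun j => Φ^[n j.succ] (v j)) j' (Φ^[n j'.succ + i] (v j')) := by
        funext l
        by_cases hl : l = j'
        · subst hl
          simp
        · rw [Function.update_of_ne hl]
          simp [Pi.single_apply, hl]
      have e2 : (n + Pi.single j'.succ i : Fin (m + 1) → ℕ) 0 = n 0 := by
        simp [Pi.single_apply, (Fin.succ_ne_zero j').symm]
      change P.coeff i * sy m f (fun j : Fin m => Φ^[(n + Pi.single j'.succ i : Fin (m + 1) → ℕ) j.succ] (v j))
        (Φ^[(n + Pi.single j'.succ i : Fin (m + 1) → ℕ) 0] x) = _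
      rw [e1, e2]

end Pool.Agent.L5helper65.SV
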